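import Pool.Agent.H52.BC.HfI
import Pool.Agent.H52.BC.Irr
import Pool.Agent.H52.TT.AsT

/-!
An irreducible inclusion of continuous cores `c(N) ⊆ c(M)` forces the fixed point algebra of the
relative bicentralizer `B(N ⊆ M, φ)` under the modular group of `φ` to be trivial.

Definitions: `Pool/Agent/H52/BC/Defs.lean`, `Pool/Agent/H52/BC/Irr.lean`.  `H` is the GNS space of
the faithful normal state `φ = ⟪ζ, · ζ⟫` of `M`, `U t = Δ_φ^{it}` is characterised by the KMS
condition (existence and uniqueness are part of the theorem; the Tomita-Takesaki theorem is proved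
in `Pool/Agent/H52/TT`), the continuous core `core M U = M ⋊ ℝ` is the von Neumann algebra on
`L²(ℝ, H)` generated by `π(x)` and `λ(r)`.

Idea of the proof: let `x = x*` be fixed by the modular group and not scalar.  After Fourier
transform the compression of `c(N)` to the spectral window `(0, d]` consists of infinite Toeplitz
like matrices over `N`; averaging over the unitaries of the window (minimal norm point, with an
exact trace vector) and irreducibility give a unitary of the window which does not almost commute
with `x`.  A finite block of it is a finite family `h_i = h_i*` in `N` with `∑ h_i² ≤ 1`,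
`∑ ‖[h_i, ζ]‖²` small and `∑ ‖[h_i, x ζ]‖²` bounded below.  A random walk on the unitary group of
`N` with steps `exp (± i h_j / 2)` turns the family into one unitary of `N` which almost
centralises `φ` but does not almost commute with `x`.
-/

namespace Pool.Agent.Results.MP_853c37_an.IrreducibleCores

variable {H : Type*} [NormedAddCommGroup H] [InnerProductSpace ℂ H] [CompleteSpace H]

theorem result (M N : VonNeumannAlgebra H) (hNM : N ≤ M) (ζ : H) (hζ : ‖ζ‖ = 1)
    (hcyc : Dense {ξ : H | ∃ x ∈ M, ξ = x ζ}) (hsep : ∀ x ∈ M, x ζ = 0 → x = 0)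
    (E : (H →L[ℂ] H) → (H →L[ℂ] H)) (hE : H52BC.IsCondExp M N ζ E) :
    ∃ U : ℝ → H →L[ℂ] H, (∀ V : ℝ → H →L[ℂ] H, H52BC.IsModularGroup M ζ V ↔ V = U) ∧
      (H52BC.IrreducibleCores M N U →
        ∀ x ∈ H52BC.relBicentralizer N M ζ, (∀ t : ℝ, U t * x * U (-t) = x) →
          ∃ c : ℂ, x = c • (1 : H →L[ℂ] H)) := by
  obtain ⟨U, hU⟩ := H52TT.exists_modularGroup (M := M) (ζ := ζ) hcyc hsep
  refine ⟨U, fun V => ⟨fun hV => H52TT.modularGroup_unique hcyc hU hV, fun h => h ▸ hU⟩,
    fun hirr => ?_⟩
  exact H52BC.main_theorem M N hNM ζ hζ hcyc hsep E hE U hU fun Z hZ hc => by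
    obtain ⟨c, h⟩ := hirr Z ⟨hZ, fun Y hY => hc Y hY⟩
    exact ⟨c, ContinuousLinearMap.ext fun F => h F⟩

end Pool.Agent.Results.MP_853c37_an.IrreducibleCores
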